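import Pool.Agent.Q111.EX.Split

/-! Project EX: job GOOD, from the reciprocity law. -/

set_option autoImplicit false
set_option linter.unusedSectionVars false
set_option linter.deprecated false

namespace Pool.Agent.Q111.EX

open NumberField IsDedekindDomain Pool.Agent.Q5.BR Pool.Agent.Q92.AR Pool.Agent.Q20.EX
  Pool.Agent.Q125.AR

/-- extension of characters -/
theorem exists_char {A : Type} [CommGroup A] [Finite A] (a : A) (c : ℂˣ)
    (h : orderOf c ∣ orderOf a) : ∃ χ : A →* ℂˣ, χ a = c := by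
  have hg : ∀ x : Subgroup.zpowers a, x ∈ Subgroup.zpowers (⟨a, Subgroup.mem_zpowers a⟩ :
      Subgroup.zpowers a) := by
    rintro ⟨x, k, rfl⟩
    exact ⟨k, Subtype.ext rfl⟩
  let χ0 : Subgroup.zpowers a →* ℂˣ := monoidHomOfForallMemZpowers hg (g' := c) (by
    rw [Subgroup.orderOf_mk]; exact h)
  obtain ⟨χ, hχ⟩ := MonoidHom.domRestrict_surjective (M := ℂ) (Subgroup.zpowers a) χ0
  refine ⟨χ, ?_⟩
  have h1 := DFunLike.congr_fun hχ ⟨a, Subgroup.mem_zpowers a⟩
  have h2 : χ0 ⟨a, Subgroup.mem_zpowers a⟩ = c := monoidHomOfForallMemZpowers_apply_gen hg _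
  rw [← h2, ← h1]
  rfl

/-- The Artin character of a character of a quotient of the Galois group, at a divisor supported
at unramified primes. -/
theorem art_quot' {F E M : Type} [Field F] [NumberField F] [Field E] [NumberField E] [Field M]
    [NumberField M] [Algebra F E] [Algebra F M] [Algebra E M] [IsScalarTower F E M] [IsGalois F M]
    [IsGalois F E] (ψ : (M ≃ₐ[F] M) →* ℂˣ) (ψ' : (E ≃ₐ[F] E) →* ℂˣ)
    (h : ∀ g : M ≃ₐ[F] M, ψ' (AlgEquiv.restrictNormal g E) = ψ g)
    (D : Dv F) (hD : ∀ v, D v ≠ 0 → Unramified M v) : art ψ' D = art ψ D := by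
  rw [art_eq_sum, art_eq_sum]
  refine Finset.sum_congr rfl fun v hv => ?_
  have hu : Unramified M v := hD v (Finsupp.mem_support_iff.1 hv)
  have huE : Unramified E v := hu.sub
  have h2 : IsFrobenius v (AlgEquiv.restrictNormal (frob M v) E) :=
    Pool.Agent.Q225.AR.fr.1 F E M v (frob M v) (frob_spec v)
  have h3 := chi_frob huE (frob_spec (M := E) v) h2 ψ'
  rw [h3, h]

/-- the field cut out by a character -/
theorem exists_quot {F C : Type} [Field F] [NumberField F] [Field C] [NumberField C]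
    [Algebra F C] [IsGalois F C] (θ : (C ≃ₐ[F] C) →* ℂˣ) :
    ∃ (L : IntermediateField F C) (_ : IsGalois F L) (θ' : (L ≃ₐ[F] L) →* ℂˣ),
      Function.Injective θ' ∧ ∀ g : C ≃ₐ[F] C, θ' (AlgEquiv.restrictNormal g L) = θ g := by
  classical
  let H : Subgroup (C ≃ₐ[F] C) := θ.ker
  let E : IntermediateField F C := IntermediateField.fixedField H
  have hfix : E.fixingSubgroup = H := IntermediateField.fixingSubgroup_fixedField H
  have hGal : IsGalois F E := IsGalois.of_fixedField_normal_subgroup H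
  let res : (C ≃ₐ[F] C) →* (E ≃ₐ[F] E) := AlgEquiv.restrictNormalHom E
  have hres : Function.Surjective res := AlgEquiv.restrictNormalHom_surjective C
  have hker : res.ker = θ.ker := by
    change res.ker = H
    rw [← hfix]
    exact IntermediateField.restrictNormalHom_ker E
  have hle : res.ker ≤ θ.ker := hker.le
  let ψ' : (E ≃ₐ[F] E) →* ℂˣ := (MonoidHom.liftOfSurjective res hres) ⟨θ, hle⟩
  have hψ' : ∀ g, ψ' (res g) = θ g := fun g =>
    MonoidHom.liftOfRightInverse_comp_apply res _ _ ⟨θ, hle⟩ g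
  have hinj : Function.Injective ψ' := by
    rw [injective_iff_map_eq_one]
    intro g hg
    obtain ⟨g, rfl⟩ := hres g
    rw [hψ'] at hg
    have h : g ∈ res.ker := by
      rw [hker]
      exact hg
    exact h
  exact ⟨E, hGal, ψ', hinj, hψ'⟩

theorem art_mul {F C : Type} [Field F] [NumberField F] [Field C] [NumberField C]
    [Algebra F C] (θ θ' : (C ≃ₐ[F] C) →* ℂˣ) (D : Dv F) :
    art (θ * θ') D = art θ D + art θ' D := by
  rw [art_eq_sum, art_eq_sum, art_eq_sum, ← Finset.sum_add_distrib]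
  refine Finset.sum_congr rfl fun v _ => ?_
  rw [MonoidHom.mul_apply, ofMul_mul, zsmul_add]

/-- the norm of a divisor is killed if its part prime to `v` is prime to `N` and `v` splits -/
theorem art_norm_zero (hNK : S_NKer) {F L : Type} [Field F] [NumberField F] [Field L]
    [NumberField L] [Algebra F L] [IsGalois F L] (θ : (L ≃ₐ[F] L) →* ℂˣ)
    {v : HeightOneSpectrum (𝓞 F)} (h1 : θ (frob L v) = 1) {N : ℕ} (hN : N ≠ 0) (hR : Ram F L N)
    (D : Dv L) (hD : ∀ w : HeightOneSpectrum (𝓞 L), (N : 𝓞 L) ∈ w.asIdeal →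
      w.under (𝓞 F) ≠ v → D w = 0) : art θ (nmD F L D) = 0 := by
  classical
  have e := Finsupp.filter_pos_add_filter_neg D (fun w => w.under (𝓞 F) = v)
  rw [← e, map_add, map_add]
  have e2 : art θ (nmD F L (D.filter (fun w => ¬ w.under (𝓞 F) = v))) = 0 := by
    refine (hNK F L θ N hN).1 hR _ fun w hw => ?_
    rw [Finsupp.filter_apply]
    split_ifs with h
    · rfl
    · exact hD w hw h
  have e1 : art θ (nmD F L (D.filter (fun w => w.under (𝓞 F) = v))) = 0 := by
    rw [← Finsupp.sum_single (D.filter (fun w => w.under (𝓞 F) = v)), Finsupp.sum, map_sum,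
      map_sum]
    refine Finset.sum_eq_zero fun w hw => ?_
    have h2 : w.under (𝓞 F) = v := by
      by_contra h
      exact (Finsupp.mem_support_iff.1 hw) (Finsupp.filter_apply_neg _ _ h)
    rw [nmD_single, h2, art_single, h1, ofMul_one, smul_zero]
  rw [e1, e2, add_zero]

/-- JOB GOOD, from the reciprocity law -/
theorem good_of (hAR : S_AR) (hCyc : S_Cyc) (hNK : S_NKer) (hNm : S_Nm) : S_GOOD := by
  classical
  intro hNRM F M _ _ _ _ _ _ ψ v hv
  have hq2 : 2 ≤ Ideal.absNorm v.asIdeal := by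
    have h0 : Ideal.absNorm v.asIdeal ≠ 0 := by
      rw [Ne, Ideal.absNorm_eq_zero_iff]; exact v.ne_bot
    have h1 : Ideal.absNorm v.asIdeal ≠ 1 := by
      rw [Ne, Ideal.absNorm_eq_one_iff]; exact v.isPrime.ne_top
    omega
  -- the modulus `m`
  obtain ⟨m, hm0, hmc, hm⟩ := Pool.Agent.Q84.AR.ord (Ideal.absNorm v.asIdeal)
    (orderOf (ψ (frob M v))) 1 hq2 (by
      have h1 : orderOf (ψ (frob M v)) ∣ orderOf (frob M v) := orderOf_map_dvd ψ _
      have h2 : 0 < orderOf (frob M v) := orderOf_pos _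
      exact (Nat.pos_of_dvd_of_pos h1 h2).ne') one_ne_zero
  have hmz : NeZero m := ⟨hm0⟩
  rw [mul_one] at hmc
  have hmv : (m : 𝓞 F) ∉ v.asIdeal := Pool.Agent.Q128.AR.not_mem_of_coprime hmc
  obtain ⟨ρ, hρ⟩ := exists_char (ZMod.unitOfCoprime _ hmc.symm) (ψ (frob M v))⁻¹ (by
    rw [orderOf_inv]
    apply hm
    have h1 := pow_orderOf_eq_one (ZMod.unitOfCoprime (Ideal.absNorm v.asIdeal) hmc.symm)
    have h2 := congrArg (fun u : (ZMod m)ˣ => (u : ZMod m)) h1
    rw [Units.val_pow_eq_pow_val, ZMod.coe_unitOfCoprime, Units.val_one, ← Nat.cast_pow,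
      ← Nat.cast_one, ZMod.natCast_eq_natCast_iff] at h2
    exact h2)
  -- the field `C`
  obtain ⟨C, _, _, _, _, _, hcyc, hCgal⟩ : ∃ (C : Type) (_ : Field C) (_ : NumberField C)
      (_ : Algebra M C) (_ : Algebra F C) (_ : IsScalarTower F M C),
      IsCyclotomicExtension {m} M C ∧ IsGalois F C :=
    ⟨CyclotomicField m M, inferInstance, inferInstance, inferInstance, inferInstance,
      inferInstance, inferInstance, Pool.Agent.Q128.AR.isGalois_tower F M (CyclotomicField m M) m⟩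
  obtain ⟨ζ, hζ⟩ := IsCyclotomicExtension.exists_isPrimitiveRoot M C (Set.mem_singleton m) hm0
  have hvC : Unramified C v := Pool.Agent.Q280.AR.unr.2.2 F M C m v hv hmv
  let κ : (C ≃ₐ[F] C) →* (ZMod m)ˣ := hζ.autToPow F
  have hκ : ∀ g : C ≃ₐ[F] C, ζ ^ ((κ g : (ZMod m)ˣ) : ZMod m).val = g ζ := fun g =>
    hζ.autToPow_spec F g
  let C' : IntermediateField F C := IntermediateField.adjoin F {ζ}
  have hC' : IsCyclotomicExtension {m} F C' :=
    hζ.intermediateField_adjoin_isCyclotomicExtension F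
  have hC'gal : IsGalois F C' := IsCyclotomicExtension.isGalois {m} F C'
  have hζm : ζ ∈ C' := IntermediateField.mem_adjoin_simple_self F ζ
  have hζ' : IsPrimitiveRoot (⟨ζ, hζm⟩ : C') m :=
    IsPrimitiveRoot.of_map_of_injective (f := algebraMap C' C) hζ (algebraMap C' C).injective
  let κ' : (C' ≃ₐ[F] C') →* (ZMod m)ˣ := hζ'.autToPow F
  have hκ' : ∀ g : C ≃ₐ[F] C, κ' (AlgEquiv.restrictNormal g C') = κ g := by
    intro g
    have h1 := hζ'.autToPow_spec F (AlgEquiv.restrictNormal g C')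
    have h2 := congrArg (algebraMap C' C) h1
    rw [AlgEquiv.restrictNormal_commutes, map_pow] at h2
    have h3 : ζ ^ ((κ' (AlgEquiv.restrictNormal g C') : (ZMod m)ˣ) : ZMod m).val = g ζ := h2
    rw [← hκ g, Pool.Agent.Q128.AR.root_pow_iff hm0 hζ, ← ZMod.natCast_eq_natCast_iff,
      ZMod.natCast_zmod_val, ZMod.natCast_zmod_val] at h3
    exact Units.ext h3
  -- the characters
  let ψ1 : (C ≃ₐ[F] C) →* ℂˣ := ψ.comp (AlgEquiv.restrictNormalHom M)
  let ρ1 : (C ≃ₐ[F] C) →* ℂˣ := ρ.comp κ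
  obtain ⟨L, hLgal, θ', hinj, hθ'⟩ := exists_quot (ψ1 * ρ1)
  have hvL : Unramified L v := hvC.sub
  have hfr : (ψ1 * ρ1) (frob C v) = 1 := by
    have h1 : κ (frob C v) = ZMod.unitOfCoprime _ hmc.symm := by
      have h2 := Pool.Agent.Q128.AR.frob_root (frob_spec (M := C) v) hmv hζ.1
      rw [← hκ, Pool.Agent.Q128.AR.root_pow_iff hm0 hζ, ← ZMod.natCast_eq_natCast_iff,
        ZMod.natCast_zmod_val] at h2
      exact Units.ext h2
    have h3 : ψ1 (frob C v) = ψ (frob M v) :=
      chi_frob hv (Pool.Agent.Q225.AR.fr.1 F M C v (frob C v) (frob_spec v)) (frob_spec v) ψ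
    have h4 : ρ1 (frob C v) = (ψ (frob M v))⁻¹ := by
      rw [← hρ, ← h1]
      rfl
    rw [MonoidHom.mul_apply, h3, h4, mul_inv_cancel]
  have hfrL : θ' (frob L v) = 1 := by
    rw [← hfr, ← hθ']
    exact chi_frob hvL (frob_spec v)
      (Pool.Agent.Q225.AR.fr.1 F L C v (frob C v) (frob_spec v)) θ'
  have hsplit : Split L v := split_of_inj θ' hinj hvL hfrL
  -- the modulus
  obtain ⟨N1, hN1, hR1, h1⟩ := hAR F C (ψ1 * ρ1)
  obtain ⟨N2, hN2, hR2, h2⟩ := hAR F L θ'
  have hN0 : N1 * N2 * m ≠ 0 := mul_ne_zero (mul_ne_zero hN1 hN2) hm0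
  have hd1 : N1 ∣ N1 * N2 * m := ⟨N2 * m, by ring⟩
  have hd2 : N2 ∣ N1 * N2 * m := ⟨N1 * m, by ring⟩
  have hd3 : m ∣ N1 * N2 * m := ⟨N1 * N2, by ring⟩
  generalize N1 * N2 * m = N at hN0 hd1 hd2 hd3
  have hRC : Ram F C N := Ram_mono hd1 hR1
  have hRL : Ram F L N := Ram_mono hd2 hR2
  refine ⟨N, hN0, fun u hu => hRC u fun h => hu h.sub, fun x hP hC => ?_⟩
  -- the support of `prin x`
  have hsupp : ∀ u, prin x u ≠ 0 → (N : 𝓞 F) ∈ u.asIdeal → u = v := by
    intro u hu hN
    by_contra h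
    exact hu (prin_eq_zero_of_valuation (val_eq_one hN (hC u h hN)))
  have hunr : ∀ u, prin x u ≠ 0 → Unramified C u := by
    intro u hu
    by_cases h : (N : 𝓞 F) ∈ u.asIdeal
    · rw [hsupp u hu h]
      exact hvC
    · exact Pool.Agent.Q128.AR.Ram.unram hRC h
  -- the norm
  obtain ⟨y, hy1, hy2, hy3, hy4⟩ := hNRM F L N x hN0 (by
    intro u hu
    by_cases h : u = v
    · subst h
      exact Or.inr (Or.inl hsplit)
    · exact Or.inl (hC u h hu))
  have hray : x / nu F L y ∈ Ray F N := by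
    refine ⟨?_, ?_⟩
    · rw [Units.val_div_eq_div_val]
      exact hy3
    · intro φ
      rw [Units.val_div_eq_div_val, map_div₀]
      exact div_pos (hP φ) (hy2 φ)
  have e1 : art θ' (prin x) = art θ' (nmD F L (prin y)) := by
    have h3 := h2 _ (Ray_mono hd2 hray)
    rw [prin_div, map_sub, sub_eq_zero] at h3
    rw [h3, (hNm F L).1]
  have e2 : art θ' (nmD F L (prin y)) = 0 := by
    refine art_norm_zero hNK θ' hfrL hN0 hRL (prin y) fun w hw hne => ?_
    have hw2 : (N : 𝓞 F) ∈ (w.under (𝓞 F)).asIdeal := mem_under.2 hw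
    exact prin_eq_zero_of_valuation (hy4 w hw (val_eq_one hw2 (hC _ hne hw2)))
  have e3 : art θ' (prin x) = art (ψ1 * ρ1) (prin x) := art_quot' _ _ hθ' _ hunr
  have e4 : art ψ (prin x) = art ψ1 (prin x) := art_quot' _ _ (fun _ => rfl) _ hunr
  have e5 : art (ρ.comp κ') (prin x) = art ρ1 (prin x) :=
    art_quot' _ _ (fun g => by
      change ρ (κ' _) = ρ (κ g)
      rw [hκ']) _ hunr
  have e6 : art (ρ.comp κ') (prin x) = 0 := by
    refine hCyc F C' C' m m hm0 dvd_rfl (ρ.comp κ') x ⟨fun u hu => ?_, hP⟩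
    have hne : u ≠ v := by
      rintro rfl
      exact hmv hu
    obtain ⟨k, hk⟩ := hd3
    have hNu : (N : 𝓞 F) ∈ u.asIdeal := by
      rw [hk, Nat.cast_mul]
      exact u.asIdeal.mul_mem_right _ hu
    refine (hC u hne hNu).trans ?_
    rw [hk, Nat.cast_mul, map_mul]
    have h3 : u.valuation F (k : F) ≤ 1 := by
      have h4 := u.valuation_le_one (K := F) (k : 𝓞 F)
      simpa using h4
    exact mul_le_of_le_one_right' h3
  rw [e3, art_mul, ← e5, e6, add_zero, ← e4] at e1
  rw [e1, e2]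

end Pool.Agent.Q111.EX
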