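import Pool.Agent.Q92.AR.All
import Pool.Agent.Q111.EX.GoodA

/-! Project EX: jobs TRV2 and GOOD. -/

set_option autoImplicit false

namespace Pool.Agent.Q111.EX

open Pool.Agent.Q92.AR Pool.Agent.Q20.EX

/-- JOB TRV2 -/
theorem trv2 : S_TRV2 := trv2_of recip

/-- JOB GOOD -/
theorem good : S_GOOD := good_of recip all_Cyc all_NKer Pool.Agent.Q106.AR.nm

end Pool.Agent.Q111.EX
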