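import Pool.Agent.Q111.EX.Trv2A
import Pool.Agent.Q128.AR.Cls
import Pool.Agent.Q280.AR.Unr
import Pool.Agent.Q84.AR.Ord

/-! Project EX: complete splitting in the field cut out by a character. -/

set_option autoImplicit false
set_option linter.unusedSectionVars false
set_option linter.deprecated false

namespace Pool.Agent.Q111.EX

open NumberField IsDedekindDomain Pool.Agent.Q5.BR Pool.Agent.Q92.AR Pool.Agent.Q20.EX
  Pool.Agent.Q125.AR

/-- Fermat's little theorem in the residue field -/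
theorem pow_absNorm_sub {F : Type} [Field F] [NumberField F] (v : HeightOneSpectrum (𝓞 F))
    (a : 𝓞 F) : a ^ Ideal.absNorm v.asIdeal - a ∈ v.asIdeal := by
  have hm : v.asIdeal.IsMaximal := v.isMaximal
  let _ : Field (𝓞 F ⧸ v.asIdeal) := Ideal.Quotient.field v.asIdeal
  have hf : Finite (𝓞 F ⧸ v.asIdeal) := Ideal.finiteQuotientOfFreeOfNeBot _ v.ne_bot
  let _ : Fintype (𝓞 F ⧸ v.asIdeal) := Fintype.ofFinite _
  have h1 : Ideal.absNorm v.asIdeal = Fintype.card (𝓞 F ⧸ v.asIdeal) := by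
    rw [← Nat.card_eq_fintype_card]
    rfl
  rw [← Ideal.Quotient.eq_zero_iff_mem, map_sub, map_pow, h1, FiniteField.pow_card, sub_self]

theorem exists_below {F L : Type} [Field F] [NumberField F] [Field L] [NumberField L] [Algebra F L]
    {w : HeightOneSpectrum (𝓞 L)} {v : HeightOneSpectrum (𝓞 F)} (hw : w.under (𝓞 F) = v)
    (hN : Ideal.absNorm w.asIdeal = Ideal.absNorm v.asIdeal) (x : 𝓞 L) :
    ∃ a : 𝓞 F, x - algebraMap (𝓞 F) (𝓞 L) a ∈ w.asIdeal := by
  have hc : v.asIdeal = w.asIdeal.comap (algebraMap (𝓞 F) (𝓞 L)) := by rw [← hw]; rfl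
  have hf : Finite (𝓞 L ⧸ w.asIdeal) := Ideal.finiteQuotientOfFreeOfNeBot _ w.ne_bot
  let f : (𝓞 F ⧸ v.asIdeal) →+* (𝓞 L ⧸ w.asIdeal) :=
    Ideal.quotientMap w.asIdeal (algebraMap (𝓞 F) (𝓞 L)) hc.le
  have hinj : Function.Injective f := Ideal.quotientMap_injective' hc.ge
  have hcard : Nat.card (𝓞 F ⧸ v.asIdeal) = Nat.card (𝓞 L ⧸ w.asIdeal) := hN.symm
  have hb : Function.Bijective f :=
    (Nat.bijective_iff_injective_and_card f).2 ⟨hinj, hcard⟩
  obtain ⟨b, hb⟩ := hb.2 (Ideal.Quotient.mk _ x)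
  obtain ⟨a, rfl⟩ := Ideal.Quotient.mk_surjective b
  refine ⟨a, ?_⟩
  rw [← Ideal.Quotient.eq_zero_iff_mem, map_sub, ← hb]
  exact sub_self _

theorem split_of_inj {F L : Type} [Field F] [NumberField F] [Field L] [NumberField L] [Algebra F L]
    [IsGalois F L] (θ : (L ≃ₐ[F] L) →* ℂˣ) (hθ : Function.Injective θ)
    {v : HeightOneSpectrum (𝓞 F)} (hv : Unramified L v) (h1 : θ (frob L v) = 1) : Split L v := by
  intro w hw g hg
  have hf1 : frob L v = 1 := hθ (by rw [h1, map_one])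
  have hr : rdeg F w = 1 := by
    have h2 := Pool.Agent.Q225.AR.fr4 F L w (frob L v) (by rw [hw]; exact hv)
      (by rw [hw]; exact frob_spec v)
    rw [← h2, hf1, orderOf_one]
  have hN : Ideal.absNorm w.asIdeal = Ideal.absNorm v.asIdeal := by
    rw [absNorm_rdeg (K := F) w, hr, pow_one, hw]
  have hF : IsFrobenius v g := by
    refine ⟨w.asIdeal, w.isMaximal, under_eq hw, fun x => ?_⟩
    obtain ⟨a, ha⟩ := exists_below hw hN x
    have hgx : IsIntegral ℤ (g (x : L)) := x.2.map g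
    obtain ⟨y, hy⟩ : ∃ y : 𝓞 L, (y : L) = g (x : L) := ⟨⟨g (x : L), hgx⟩, rfl⟩
    refine ⟨y - x ^ Ideal.absNorm v.asIdeal, ?_, by rw [← hy]; rfl⟩
    have h3 : y - algebraMap (𝓞 F) (𝓞 L) a ∈ w.asIdeal := by
      rw [← hg, Pool.Agent.TeamU.mem_act]
      have h4 : (RingOfIntegers.mapRingEquiv g.toRingEquiv).symm
          (y - algebraMap (𝓞 F) (𝓞 L) a) = x - algebraMap (𝓞 F) (𝓞 L) a := by
        rw [RingEquiv.symm_apply_eq]
        apply RingOfIntegers.ext
        change (y : L) - algebraMap F L (a : F) = g ((x : L) - algebraMap F L (a : F))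
        rw [map_sub, hy, AlgEquiv.commutes]
      rw [h4]
      exact ha
    have h5 : x ^ Ideal.absNorm v.asIdeal -
        (algebraMap (𝓞 F) (𝓞 L) a) ^ Ideal.absNorm v.asIdeal ∈ w.asIdeal :=
      w.asIdeal.mem_of_dvd (sub_dvd_pow_sub_pow _ _ _) ha
    have h6 : (algebraMap (𝓞 F) (𝓞 L) a) ^ Ideal.absNorm v.asIdeal -
        algebraMap (𝓞 F) (𝓞 L) a ∈ w.asIdeal := by
      have h7 := pow_absNorm_sub v a
      rw [← under_eq hw, Ideal.mem_comap, map_sub, map_pow] at h7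
      rw [← under_eq hw]
      exact h7
    have h8 : y - x ^ Ideal.absNorm v.asIdeal = (y - algebraMap (𝓞 F) (𝓞 L) a) -
        (x ^ Ideal.absNorm v.asIdeal - (algebraMap (𝓞 F) (𝓞 L) a) ^ Ideal.absNorm v.asIdeal) -
        ((algebraMap (𝓞 F) (𝓞 L) a) ^ Ideal.absNorm v.asIdeal -
        algebraMap (𝓞 F) (𝓞 L) a) := by ring
    rw [h8]
    exact w.asIdeal.sub_mem (w.asIdeal.sub_mem h3 h5) h6
  apply hθ
  rw [map_one, ← h1]
  exact chi_frob hv hF (frob_spec v) θ

end Pool.Agent.Q111.EX
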