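import Pool.Agent.Q111.EX.Unr
import Pool.Agent.Q125.AR.Final
import Pool.Agent.Q225.AR.FR

/-! Project EX: job TRV2, from the reciprocity law. -/

set_option autoImplicit false
set_option linter.unusedSectionVars false
set_option linter.deprecated false

namespace Pool.Agent.Q111.EX

open NumberField IsDedekindDomain Pool.Agent.Q5.BR Pool.Agent.Q92.AR Pool.Agent.Q20.EX
  Pool.Agent.Q125.AR

/-- The Artin character of a character of a quotient of the Galois group. -/
theorem art_quot {F E M : Type} [Field F] [NumberField F] [Field E] [NumberField E] [Field M]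
    [NumberField M] [Algebra F E] [Algebra F M] [Algebra E M] [IsScalarTower F E M] [IsGalois F M]
    [IsGalois F E] (ψ : (M ≃ₐ[F] M) →* ℂˣ) (ψ' : (E ≃ₐ[F] E) →* ℂˣ)
    (h : ∀ g : M ≃ₐ[F] M, ψ' (AlgEquiv.restrictNormal g E) = ψ g) (N : ℕ) (hR : Ram F M N)
    (D : Dv F) (hD : D ∈ Pr F N) : art ψ' D = art ψ D := by
  rw [art_eq_sum, art_eq_sum]
  refine Finset.sum_congr rfl fun v hv => ?_
  have hN : (N : 𝓞 F) ∉ v.asIdeal := by
    intro h
    exact (Finsupp.mem_support_iff.1 hv) (hD v h)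
  have hu : Unramified M v := by
    by_contra h
    exact hN (hR v h)
  have huE : Unramified E v := hu.sub
  have h2 : IsFrobenius v (AlgEquiv.restrictNormal (frob M v) E) :=
    Pool.Agent.Q225.AR.fr.1 F E M v (frob M v) (frob_spec v)
  have h3 := chi_frob huE (frob_spec (M := E) v) h2 ψ'
  rw [h3, h]

theorem prin_mem_of_Un {F : Type} [Field F] [NumberField F] {N : ℕ} {x : Fˣ} (hx : Un N x) :
    prin x ∈ Pr F N := fun v hv => prin_eq_zero_of_valuation (hx v hv)

theorem trv2_of (hAR : S_AR) : S_TRV2 := by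
  classical
  intro hNRM hTRIV F M _ _ _ _ _ _ ψ
  let H : Subgroup (M ≃ₐ[F] M) := ψ.ker
  let E : IntermediateField F M := IntermediateField.fixedField H
  have hfix : E.fixingSubgroup = H := IntermediateField.fixingSubgroup_fixedField H
  have hGal : IsGalois F E := IsGalois.of_fixedField_normal_subgroup H
  -- the restriction map
  let res : (M ≃ₐ[F] M) →* (E ≃ₐ[F] E) := AlgEquiv.restrictNormalHom E
  have hres : Function.Surjective res := AlgEquiv.restrictNormalHom_surjective M
  have hker : res.ker = ψ.ker := by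
    change res.ker = H
    rw [← hfix]
    exact IntermediateField.restrictNormalHom_ker E
  -- the character of the quotient
  have hle : res.ker ≤ ψ.ker := hker.le
  let ψ' : (E ≃ₐ[F] E) →* ℂˣ := (MonoidHom.liftOfSurjective res hres) ⟨ψ, hle⟩
  have hψ' : ∀ g, ψ' (res g) = ψ g := fun g =>
    MonoidHom.liftOfRightInverse_comp_apply res _ _ ⟨ψ, hle⟩ g
  obtain ⟨N1, hN1, hR1, h1⟩ := hAR F E ψ'
  obtain ⟨N2, hN2, hR2, h2⟩ := hAR F M ψ
  have hN0 : N1 * N2 ≠ 0 := mul_ne_zero hN1 hN2
  have hRM : Ram F M (N1 * N2) := Ram_mono (dvd_mul_left N2 N1) hR2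
  have hRE : Ram F E (N1 * N2) := Ram_mono (dvd_mul_right N1 N2) hR1
  refine ⟨N1 * N2, hN0, hRM, fun x hx => h2 x (Ray_mono (dvd_mul_left N2 N1) hx), ?_⟩
  have hT := hTRIV hNRM F E ψ' (N1 * N2) hN0 hRE
    (fun x hx => h1 x (Ray_mono (dvd_mul_right N1 N2) hx))
  intro x hU hP hC
  rw [← art_quot ψ ψ' hψ' (N1 * N2) hRM (prin x) (prin_mem_of_Un hU)]
  refine hT x hU hP fun v hv hN => hC v ?_ hN
  rw [compl_compl]
  by_contra hcon
  apply hv
  refine unram_of_inert (M := M) v fun w hw g hg y => ?_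
  have h3 : ψ g = 1 := by
    by_contra h4
    exact hcon ⟨w, hw, g, hg, h4⟩
  have h5 : g ∈ E.fixingSubgroup := by
    rw [hfix]
    exact h3
  rw [IntermediateField.mem_fixingSubgroup_iff] at h5
  exact h5 y.1 y.2

end Pool.Agent.Q111.EX
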