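import Pool.Agent.Q20.EX.Stm2

/-! Project EX: unramified primes and inertia groups. -/

set_option autoImplicit false
set_option linter.unusedSectionVars false
set_option linter.deprecated false

namespace Pool.Agent.Q111.EX

open NumberField IsDedekindDomain Pool.Agent.Q5.BR Pool.Agent.Q92.AR Pool.Agent.Q20.EX

open Ideal in
/-- If all inertia elements above `v` act trivially on `E`, then `v` is unramified in `E`. -/
theorem unram_of_inert {F E M : Type} [Field F] [NumberField F] [Field E] [NumberField E] [Field M]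
    [NumberField M] [Algebra F E] [Algebra F M] [Algebra E M] [IsScalarTower F E M] [IsGalois F M]
    (v : HeightOneSpectrum (𝓞 F))
    (h : ∀ w : HeightOneSpectrum (𝓞 M), w.under (𝓞 F) = v → ∀ g : M ≃ₐ[F] M, Inert w g →
      ∀ x : E, g (algebraMap E M x) = algebraMap E M x) : Unramified E v := by
  intro u hu hle
  have hG : IsGalois E M := IsGalois.tower_top_of_isGalois F E M
  have huP : u.asIdeal.IsPrime := u.isPrime
  obtain ⟨⟨Q, hQ, hQP⟩⟩ := (inferInstance : Nonempty (primesOver u.asIdeal (𝓞 M)))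
  have huv : u.asIdeal.under (𝓞 F) = v.asIdeal := by
    rw [← hu]; rfl
  have hp : (u.asIdeal.under (𝓞 F)).IsPrime := inferInstance
  have hPp : u.asIdeal.LiesOver (u.asIdeal.under (𝓞 F)) := inferInstance
  have hQp : Q.LiesOver (u.asIdeal.under (𝓞 F)) := LiesOver.trans Q u.asIdeal (u.asIdeal.under (𝓞 F))
  have hP0 : u.asIdeal ≠ ⊥ := u.ne_bot
  have hp0 : u.asIdeal.under (𝓞 F) ≠ ⊥ := under_ne_bot (𝓞 F) hP0
  have hQ0 : Q ≠ ⊥ := ne_bot_of_liesOver_of_ne_bot hP0 Q
  have hm1 : (u.asIdeal.under (𝓞 F)).IsMaximal := hp.isMaximal hp0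
  have hm2 : u.asIdeal.IsMaximal := huP.isMaximal hP0
  have : PerfectField (u.asIdeal.under (𝓞 F)).ResidueField := by
    have hf : Finite (𝓞 F ⧸ u.asIdeal.under (𝓞 F)) := finiteQuotientOfFreeOfNeBot _ hp0
    have hf2 : Finite (u.asIdeal.under (𝓞 F)).ResidueField :=
      Finite.of_surjective _
        (bijective_algebraMap_quotient_residueField (u.asIdeal.under (𝓞 F))).2
    infer_instance
  have : PerfectField u.asIdeal.ResidueField := by
    have hf : Finite (𝓞 E ⧸ u.asIdeal) := finiteQuotientOfFreeOfNeBot _ hP0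
    have hf2 : Finite u.asIdeal.ResidueField :=
      Finite.of_surjective _ (bijective_algebraMap_quotient_residueField u.asIdeal).2
    infer_instance
  have e1 : Nat.card (Q.inertia Gal(M/F)) = Q.ramificationIdx (𝓞 F) := by
    rw [card_inertia_eq_ramificationIdxIn (u.asIdeal.under (𝓞 F)) Q,
      ramificationIdxIn_eq_ramificationIdx (u.asIdeal.under (𝓞 F)) Q Gal(M/F)]
  have e2 : Nat.card (Q.inertia Gal(M/E)) = Q.ramificationIdx (𝓞 E) := by
    rw [card_inertia_eq_ramificationIdxIn u.asIdeal Q,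
      ramificationIdxIn_eq_ramificationIdx u.asIdeal Q Gal(M/E)]
  have e3 := ramificationIdx_tower (R := 𝓞 F) u.asIdeal Q
  rw [← e1, ← e2] at e3
  let w : HeightOneSpectrum (𝓞 M) := ⟨Q, hQ, hQ0⟩
  have hwv : w.under (𝓞 F) = v := by
    apply HeightOneSpectrum.ext
    rw [← huv]
    exact hQp.over.symm
  -- every element of the inertia group over `F` fixes `E`
  have key : ∀ σ : Gal(M/F), σ ∈ Q.inertia Gal(M/F) → ∀ x : E,
      σ (algebraMap E M x) = algebraMap E M x := by
    intro σ hσ x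
    refine h w hwv σ (fun y => ?_) x
    have h3 := hσ y
    have h4 : (w.valuation M) (algebraMap (𝓞 M) M (σ • y - y)) < 1 :=
      (w.valuation_lt_one_iff_mem (K := M) _).2 h3
    exact h4
  have hle2 : Nat.card (Q.inertia Gal(M/F)) ≤ Nat.card (Q.inertia Gal(M/E)) := by
    let f : Q.inertia Gal(M/F) → Q.inertia Gal(M/E) :=
      fun σ => ⟨{ (σ.1 : M ≃ₐ[F] M) with
        commutes' := fun x => key σ.1 σ.2 x }, fun x => σ.2 x⟩
    refine Nat.card_le_card_of_injective f ?_
    intro σ τ hστ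
    apply Subtype.ext
    apply AlgEquiv.ext
    intro x
    have h6 := congrArg (fun ρ => ρ.1 x) hστ
    exact h6
  have hpos : 0 < Nat.card (Q.inertia Gal(M/E)) := Nat.card_pos
  rw [e3] at hle2
  have h7 : u.asIdeal.ramificationIdx (𝓞 F) ≤ 1 := by
    by_contra hcon
    push Not at hcon
    nlinarith
  have h9 : 2 ≤ u.asIdeal.ramificationIdx (𝓞 F) := by
    have hmap : (u.asIdeal.under (𝓞 F)).map (algebraMap (𝓞 F) (𝓞 E)) ≠ ⊥ :=
      map_ne_bot_of_ne_bot hp0
    rw [IsDedekindDomain.ramificationIdx_eq_multiplicity (u.asIdeal.under (𝓞 F)) u.asIdeal hmap]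
    refine FiniteMultiplicity.le_multiplicity_of_pow_dvd ?_ ?_
    · exact FiniteMultiplicity.of_prime_left (Ideal.prime_of_isPrime hP0 huP) hmap
    · rw [Ideal.dvd_iff_le, huv]
      exact hle
  omega

end Pool.Agent.Q111.EX
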